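import Pool.Agent.Y140.AW.Stm

/-! LIFT: points of the cover and embeddings. -/

set_option autoImplicit false

namespace Pool.Agent.Y548.AW

open Polynomial Pool.Agent.Y140.AW

section

variable {K E N : Type} [Field K] [Field E] [Algebra (RatFunc K) E] [Algebra K E]
  [IsScalarTower K (RatFunc K) E] [Field N] [Algebra K N]

/-- an embedding restricted to polynomials is evaluation -/
theorem comp_eq (φ : E →ₐ[K] N) :
    (φ.toRingHom.comp (algebraMap (RatFunc K) E)).comp (algebraMap K[X] (RatFunc K)) =
      (Polynomial.aeval (φ (algebraMap (RatFunc K) E RatFunc.X)) : K[X] →ₐ[K] N).toRingHom := by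
  apply Polynomial.ringHom_ext
  · intro c
    have h1 : algebraMap K[X] (RatFunc K) (C c) = algebraMap K (RatFunc K) c := by
      rw [IsScalarTower.algebraMap_apply K K[X] (RatFunc K)]; rfl
    simp only [RingHom.comp_apply, h1]
    rw [← IsScalarTower.algebraMap_apply K (RatFunc K) E]
    simp
  · simp

theorem eval_eq (φ : E →ₐ[K] N) (θ : E) (Θ : K[X][X])
    (h : aeval θ (Θ.map (algebraMap K[X] (RatFunc K))) = 0) :
    (tA Θ (φ (algebraMap (RatFunc K) E RatFunc.X))).eval (φ θ) = 0 := by
  unfold tA
  rw [← comp_eq φ, eval_map]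
  rw [aeval_def, eval₂_map] at h
  have h2 := congrArg φ.toRingHom h
  rw [hom_eval₂, map_zero] at h2
  exact h2

end

theorem t_lift : St_lift := by
  intro K E N G _ _ _ _ _ _ _ _ _ _ _ g θ Θ hg hΘ
  have hroot : aeval θ (Θ.map (algebraMap K[X] (RatFunc K))) = 0 := by
    rw [hΘ]; exact minpoly.aeval _ _
  refine ⟨?_, ?_, ?_⟩
  · intro a b ha hb
    have hinj : nonZeroDivisors K[X] ≤ (nonZeroDivisors N).comap (aeval a : K[X] →ₐ[K] N) := by
      intro p hp
      have hp' : p ≠ 0 := nonZeroDivisors.ne_zero hp
      refine mem_nonZeroDivisors_of_ne_zero ?_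
      intro h0
      exact ha ⟨p, hp', h0⟩
    let j : RatFunc K →ₐ[K] N := RatFunc.liftAlgHom (aeval a : K[X] →ₐ[K] N) hinj
    have hj : j.toRingHom.comp (algebraMap K[X] (RatFunc K)) =
        (aeval a : K[X] →ₐ[K] N).toRingHom := by
      refine RingHom.ext fun p => ?_
      have h1 : j (algebraMap K[X] (RatFunc K) p / algebraMap K[X] (RatFunc K) 1) =
          aeval a p / aeval a (1 : K[X]) := RatFunc.liftAlgHom_apply_div _ _ _ _
      rw [map_one, map_one, div_one, div_one] at h1
      exact h1
    letI : Algebra (RatFunc K) N := j.toRingHom.toAlgebra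
    haveI : IsScalarTower K (RatFunc K) N := IsScalarTower.of_algebraMap_eq fun c => (j.commutes c).symm
    have hb' : aeval b (minpoly (RatFunc K) θ) = 0 := by
      rw [← hΘ, aeval_def, eval₂_map]
      have e : (algebraMap (RatFunc K) N).comp (algebraMap K[X] (RatFunc K)) =
        (aeval a : K[X] →ₐ[K] N).toRingHom := hj
      rw [e, ← eval_map]
      exact hb
    obtain ⟨φ, hφ⟩ := IntermediateField.exists_algHom_of_splits_of_aeval (F := RatFunc K) (E := E) (K := N)
      (fun s => ⟨Algebra.IsIntegral.isIntegral s, IsAlgClosed.splits _⟩) hb'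
    refine ⟨φ.restrictScalars K, ?_, hφ⟩
    rw [AlgHom.restrictScalars_apply, φ.commutes]
    have : algebraMap (RatFunc K) N RatFunc.X = j RatFunc.X := rfl
    rw [this, ← RatFunc.algebraMap_X]
    have := congrArg (fun f => f X) hj
    simpa using this
  · intro φ
    exact eval_eq φ θ Θ hroot
  · intro φ ψ hx hθ
    have hag : φ.toRingHom.comp (algebraMap (RatFunc K) E) =
        ψ.toRingHom.comp (algebraMap (RatFunc K) E) := by
      apply IsLocalization.ringHom_ext (nonZeroDivisors K[X])
      rw [comp_eq, comp_eq, hx]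
    letI : Algebra (RatFunc K) N := (ψ.toRingHom.comp (algebraMap (RatFunc K) E)).toAlgebra
    letI : Algebra E N := ψ.toRingHom.toAlgebra
    haveI : IsScalarTower (RatFunc K) E N := IsScalarTower.of_algebraMap_eq fun c => rfl
    let φ' : E →ₐ[RatFunc K] N := { φ.toRingHom with
      commutes' := fun c => congrArg (fun f => f c) hag }
    let σ := Normal.algHomEquivAut (RatFunc K) N E φ'
    have hσ : ∀ y, φ y = ψ (σ y) := by
      intro y
      have h1 := (Normal.algHomEquivAut (RatFunc K) N E).symm_apply_apply φ'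
      have h2 := congrArg (fun f => f y) h1
      exact h2.symm
    have h3 : σ θ = θ := by
      apply ψ.toRingHom.injective
      have := hσ θ
      rw [hθ] at this
      exact this.symm
    obtain ⟨h, hh⟩ := (hg σ).1 h3
    exact ⟨h, fun y => by rw [hσ y, hh]⟩

end Pool.Agent.Y548.AW
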